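import Pool.Agent.H523.CM23

set_option autoImplicit false

/-!
# Level of distribution close to one with arbitrary fixed coefficients, for almost all residues

The question in the polynomial ring over an arbitrary finite field with `q` elements: the monic
polynomials of degree `n` take the place of the integers of size `X = q ^ n`, and `n` the place of
`log X`.
-/

namespace Pool.Agent.Results.MP_188a10_nt.FixedCoefficients

open Polynomial
open Pool.Agent.H341R2.Sharp (Mon mem_Mon)
open Pool.Agent.H523.FF (Ir mem_Ir PL mem_PL)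
open Pool.Agent.H523

/-- the number of the monic divisors of `f` -/
noncomputable def divisorCount {F : Type} [Field F] (f : F[X]) : ℕ :=
  {M : F[X] | M.Monic ∧ M ∣ f}.ncard

/-- the number of the reduced residue classes modulo `M` -/
noncomputable def totient {F : Type} [Field F] (M : F[X]) : ℕ :=
  {b : F[X] | b.degree < M.degree ∧ IsCoprime b M}.ncard

/-- the number of the monic irreducible `P` of degree `n` with `P ≡ a mod M` -/
noncomputable def primesIn {F : Type} [Field F] (n : ℕ) (M a : F[X]) : ℕ :=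
  {P : F[X] | P.Monic ∧ Irreducible P ∧ P.natDegree = n ∧ M ∣ P - a}.ncard

open scoped Classical in
/-- the discrepancy `n π(n; M, a) - q ^ n / φ(M)`, without the main term if `a` and `M` are not
coprime -/
noncomputable def discrepancy {F : Type} [Field F] [Fintype F] (n : ℕ) (M a : F[X]) : ℝ :=
  (n : ℝ) * primesIn n M a - if IsCoprime a M then (Fintype.card F : ℝ) ^ n / totient M else 0

lemma divisorCount_eq {F : Type} [Field F] [Fintype F] {f : F[X]} (hf : f ≠ 0) :
    divisorCount f = CM.tau f := by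
  classical
  unfold divisorCount CM.tau
  rw [← Set.ncard_coe_finset]
  congr 1
  ext M
  rw [Set.mem_ofPred_eq, Finset.mem_coe, CM.mem_div hf]

lemma totient_eq {F : Type} [Field F] [Fintype F] {M : F[X]} (hM : M.Monic) :
    totient M = CM.phi1 M := by
  classical
  unfold totient CM.phi1
  rw [← Set.ncard_coe_finset]
  congr 1
  ext b
  rw [Set.mem_ofPred_eq, Finset.mem_coe, Finset.mem_filter, mem_PL,
    degree_eq_natDegree hM.ne_zero]

open scoped Classical in
lemma primesIn_eq {F : Type} [Field F] [Fintype F] {n : ℕ} {a : F[X]} (ha : a.degree < n) (M : F[X]) :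
    (∑ f ∈ (Mon F n).filter (fun f => M ∣ f), CM.th n (f + a)) = (n : ℝ) * primesIn n M a := by
  unfold CM.th primesIn
  rw [← Finset.sum_filter, Finset.sum_const, nsmul_eq_mul, mul_comm, Finset.filter_filter]
  congr 2
  have h : {P : F[X] | P.Monic ∧ Irreducible P ∧ P.natDegree = n ∧ M ∣ P - a} =
      ((((Mon F n).filter (fun f => M ∣ f ∧ f + a ∈ Ir F n)).image (fun f => f + a) : Finset F[X]) :
        Set F[X]) := by
    ext P
    rw [Set.mem_ofPred_eq, Finset.mem_coe, Finset.mem_image]
    constructor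
    · rintro ⟨h1, h2, h3, h4⟩
      refine ⟨P - a, ?_, by ring⟩
      rw [Finset.mem_filter, mem_Mon]
      have hd : a.degree < P.degree := by
        rw [degree_eq_natDegree h1.ne_zero, h3]
        exact ha
      refine ⟨⟨h1.sub_of_left hd, ?_⟩, h4, ?_⟩
      · rw [sub_eq_add_neg, natDegree_add_eq_left_of_degree_lt (by rw [degree_neg]; exact hd), h3]
      · rw [sub_add_cancel, mem_Ir]
        exact ⟨h1, h2, h3⟩
    · rintro ⟨f, hf, rfl⟩
      rw [Finset.mem_filter, mem_Mon, mem_Ir] at hf
      obtain ⟨_, h2, h3, h4, h5⟩ := hf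
      refine ⟨h3, h4, h5, ?_⟩
      rw [add_sub_cancel_right]
      exact h2
  rw [h, Set.ncard_coe_finset, Finset.card_image_of_injective _ (add_left_injective a)]

/-- **Level of distribution close to one with fixed divisor bounded coefficients, in the mean
square over the residues of an arbitrary disc.** -/
theorem result (F : Type) [Field F] [Fintype F] (κ n m : ℕ) (hn : 1 ≤ n) (hm : m ≤ n)
    (a₀ : F[X]) (ha₀ : a₀.degree < n) (c : F[X] → ℂ)
    (hc : ∀ M : F[X], M.Monic → ‖c M‖ ≤ (divisorCount M : ℝ) ^ κ) :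
    ∑ᶠ a ∈ {a : F[X] | (a - a₀).degree < m},
      ‖∑ᶠ M ∈ {M : F[X] | M.Monic ∧ M.natDegree ≤ n - m / 2},
        c M * ((discrepancy n M a : ℝ) : ℂ)‖ ^ 2 ≤
      ((n : ℝ) + 1) ^ (4 ^ (κ + 1) + 8) * (Fintype.card F : ℝ) ^ (2 * n + m - m / 2) := by
  classical
  have hc' : ∀ M : F[X], M.Monic → ‖c M‖ ≤ (CM.tau M : ℝ) ^ κ := by
    intro M hM
    rw [← divisorCount_eq hM.ne_zero]
    exact hc M hM
  have h := CM.level hn hm c hc' ha₀
  have e4 : 4 ^ (κ + 1) = 2 ^ (2 * κ + 2) := by
    rw [show 2 * κ + 2 = 2 * (κ + 1) by ring, pow_mul]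
    norm_num
  rw [e4]
  refine le_trans (le_of_eq ?_) h
  have hset : {a : F[X] | (a - a₀).degree < m} =
      (((PL F m).image (fun h => a₀ + h) : Finset F[X]) : Set F[X]) := by
    ext a
    rw [Set.mem_ofPred_eq, Finset.mem_coe, Finset.mem_image]
    constructor
    · intro h
      exact ⟨a - a₀, mem_PL.mpr h, by ring⟩
    · rintro ⟨h, hh, rfl⟩
      rw [add_sub_cancel_left]
      exact mem_PL.mp hh
  rw [hset, finsum_mem_coe_finset, Finset.sum_image (fun x _ y _ h => by simpa using h)]
  refine Finset.sum_congr rfl (fun h hh => ?_)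
  have hdeg : (a₀ + h).degree < (n : WithBot ℕ) :=
    lt_of_le_of_lt (degree_add_le _ _) (max_lt ha₀
      (lt_of_lt_of_le (mem_PL.mp hh) (by exact_mod_cast hm)))
  have hset2 : {M : F[X] | M.Monic ∧ M.natDegree ≤ n - m / 2} =
      ((CM.ML F (n - m / 2) : Finset F[X]) : Set F[X]) := by
    ext M
    rw [Set.mem_ofPred_eq, Finset.mem_coe, CM.mem_ML]
  rw [hset2, finsum_mem_coe_finset]
  congr 2
  refine Finset.sum_congr rfl (fun M hM => ?_)
  rw [CM.mem_ML] at hM
  unfold discrepancy
  rw [primesIn_eq hdeg M, totient_eq hM.1]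

end Pool.Agent.Results.MP_188a10_nt.FixedCoefficients
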