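import Pool.Agent.H564.LD.Final

/-!
# How many primes does a level of distribution need?

For real weights `w` on the primes let `(∗)_α(w)` be the statement `(∗)_α` of the problem with
`∑_{p ≤ y, p ≡ l (d)} w(p)` instead of `π(y; d, l)`: for some `C₁ > 0`
`∑_{d < N^α (log N)^{-C₁}} μ(d)² 3^{ν(d)} max_{2 ≤ y ≤ N, (l,d)=1} |∑_{p ≤ y, p ≡ l (d)} w(p) - li(y)/φ(d)| ≪ N (log N)^{-3}`
(`Admissible w α`; `Admissible 1 α` is the statement that `α` is admissible). `w` uses the primes with `w(p) ≠ 0`.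

* (A) Let `0 ≤ κ < 1` and let the primes be chosen independently, `p` with a probability `δ_p = p^{-κ + o(1)}`; give the
  chosen ones the weight `1/δ_p` and the others `0`. Almost surely (`Inherits w κ`): at most `N^{1-κ+ε}` primes `p ≤ N`
  are used; for all `0 < α < 1 - κ`, `α` is admissible for `w` if and only if it is admissible for the primes; in
  particular all `α ≤ 1/2`, `α < 1 - κ` are admissible for `w`; and no `α ∈ (1-κ, 1]` is admissible for `w`.
* (B) So for every `0 ≤ κ < 1` there is one weight `w ≥ 0` with these properties.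
* (C) Nothing better is possible, for any real weights: `(∗)_α(w)` with the constant `C₁` implies that at least
  `N^α / (32 (log N)^{C₁+1})` primes `p ≤ N` are used, for all large `N` (`0 < α ≤ 1`).
* (D) Hence if `α` is admissible (for instance if `α ≤ 1/2`), the smallest sets of primes of level `α` have `N^{α+o(1)}`
  elements up to `N`.

Proof. (A): exponential moments for every class modulo every `d ≤ N` and the lemma of Borel and Cantelli; the theorem of
Bombieri and Vinogradov with the weights `3^{ν(d)}` is taken from the library. (C): if fewer primes are used, then every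
prime `d` in an interval below `N^α (log N)^{-C₁}` has a reduced class without used primes, and each of these classes
has an error `li(N)/φ(d)`.
-/

set_option autoImplicit false

namespace Pool.Agent.Results.MP_188a10_nt.SizeOfSets

open MeasureTheory Filter Topology Classical ProbabilityTheory
open Pool.Agent.H564.LD

/-- **How many primes does a level of distribution need?** -/
theorem result :
    -- (A) random samples of the primes
    (∀ (Ω : Type) [MeasurableSpace Ω] (μ : Measure Ω) [IsProbabilityMeasure μ]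
      (A : ℕ → Set Ω) (δ : ℕ → ℝ) (κ : ℝ), (∀ p, MeasurableSet (A p)) → iIndepSet A μ →
      (∀ p, 0 < δ p) → (∀ p, μ (A p) = ENNReal.ofReal (δ p)) → 0 ≤ κ → κ < 1 →
      (∀ ε : ℝ, 0 < ε → ∀ᶠ p : ℕ in atTop, p.Prime →
        (p : ℝ) ^ (-κ - ε) ≤ δ p ∧ δ p ≤ (p : ℝ) ^ (-κ + ε)) →
      ∀ᵐ ω ∂μ, Inherits (fun p => if ω ∈ A p then 1 / δ p else 0) κ) ∧
    -- (B) deterministic weights
    (∀ κ : ℝ, 0 ≤ κ → κ < 1 → ∃ w : ℕ → ℝ, (∀ p, 0 ≤ w p) ∧ Inherits w κ) ∧
    -- (C) optimality, for all weights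
    (∀ (w : ℕ → ℝ) (α C₁ : ℝ), 0 < α → α ≤ 1 → 0 < C₁ → Star w α C₁ → ∀ᶠ N : ℕ in atTop,
      (N : ℝ) ^ α / (32 * Real.log N ^ (C₁ + 1)) ≤ ((used w N).card : ℝ)) ∧
    -- (D) the smallest sets of primes of level `α`
    (∀ α : ℝ, 0 < α → α < 1 → (Admissible (fun _ => 1) α ∨ α ≤ 1 / 2) →
      (∀ ε : ℝ, 0 < ε → ∃ w : ℕ → ℝ, (∀ p, 0 ≤ w p) ∧ Admissible w α ∧
        ∀ᶠ N : ℕ in atTop, ((used w N).card : ℝ) ≤ (N : ℝ) ^ (α + ε)) ∧
      (∀ w : ℕ → ℝ, Admissible w α → ∀ ε : ℝ, 0 < ε →
        ∀ᶠ N : ℕ in atTop, (N : ℝ) ^ (α - ε) ≤ ((used w N).card : ℝ))) := by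
  refine ⟨?_, ?_, ?_, ?_⟩
  · intro Ω _ μ _ A δ κ hA hind hδ hμ hκ0 hκ1 hd
    exact almost_surely hA hind hδ hμ hκ0 hκ1 hd
  · intro κ hκ0 hκ1
    exact exists_weight hκ0 hκ1
  · intro w α C₁ hα0 hα1 hC₁ h
    exact optimal hα0 hα1 hC₁ h
  · intro α hα0 hα1 h
    have h1 : Admissible (fun _ => 1) α := h.elim id fun h2 => bombieri hα0 h2
    exact ⟨fun ε hε => smallest hα0 hα1 h1 hε,
      fun w hw ε hε => optimal_rpow hα0 hα1.le hw hε⟩

end Pool.Agent.Results.MP_188a10_nt.SizeOfSets
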