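import Pool.Agent.H414.LT.Che
import Pool.Agent.H414.GE.Lsa
import Pool.Agent.H414.GE.Ls
import Pool.Agent.H414.GE.Ch
import Pool.Agent.H414.GE.Exp
import Pool.Agent.H414.GE.Cls
import Pool.Agent.H414.GE.Sel
import Pool.Agent.H414.GE.Gb
import Pool.Agent.H414.GE.Gc
import Pool.Agent.H414.GE.Gg
import Pool.Agent.H414.GE.T1b

/-!
# The generalized Riemann hypothesis, with arbitrary twists, gives no level of distribution beyond one half

For any bounded twists `c j : ℕ → ℂ` (countably many arbitrary functions with `|c j p| ≤ 1`) there is a set `P`
of primes of relative density one, which is as close to the primes as square root cancellation in all sums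
twisted by all Dirichlet characters of all moduli can tell: with weights `w k ∈ [1 - 1 / (k + 1), 1]`,

`|∑_{p ≤ x, p ∈ P} c j p χ(p) - ∑_k w k ∑_{p ≤ x, 2 ^ k < p ≤ 2 ^ (k + 1)} c j p χ(p)| ≤ C √x log ((j + 2) q (x + 2))`

for all `j`, all characters `χ` modulo `q`, all `q` and `x`, but for which NO `α > 1/2` is admissible: for all `C₁` and `K`,
the sum of the `3 ^ ν(d) E(N, d)` over the squarefree `d < N ^ α (log N) ^ (- C₁)` is larger than `K N / (log N) ^ 3` for all
large `N` (`E(N, d)` is the maximum of `|π_P(y; d, l) - π_P(y) / φ(d)|` over the `y ≤ N` and the `l` prime to `d`).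

So a proof that some `α > 1/2` is admissible must use more about the primes than the bounds which the generalized Riemann
hypothesis gives for the sums of characters (the full strength of which is the admissibility of `1/2`), even
if such bounds were known for the sums with countably many arbitrary twists.

Proof. For the block `(2 ^ k, 2 ^ (k + 1)]` choose random residue classes `a_q` for the primes `q` between `2 ^ (k / 2)` and
`2 ^ (k / 2 + √k)`, and remove from the primes `p` of the block a random set with the probabilities
`hit(p) / (4 k + 20)`, `hit(p)` being the number of the `q` with `p ≡ a_q (mod q)`. By the large sieve inequality the variance of each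
of the sums is at most of the order of `2 ^ k`, and exponential moments show that some choice has the
required properties; the classes `a_q` have too few elements of `P`.
-/

set_option autoImplicit false

namespace Pool.Agent.Results.MP_188a10_nt.StrengthOfGRH

open Pool.Agent.H414.GE

/-- Relative density one sets of primes with square root cancellation for all characters with arbitrary twists
and without any admissible `α > 1 / 2`. -/
theorem result : ∀ c : ℕ → ℕ → ℂ, (∀ j n, ‖c j n‖ ≤ 1) →
    ∃ (P : Set ℕ) (w : ℕ → ℝ), (∀ p ∈ P, p.Prime) ∧
      (∀ k : ℕ, 1 - 1 / ((k : ℝ) + 1) ≤ w k ∧ w k ≤ 1) ∧ Close P w c ∧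
      ∀ α C₁ K : ℝ, 1 / 2 < α → ∃ N₀ : ℕ, ∀ N : ℕ, N₀ ≤ N →
        K * N / Real.log N ^ 3 < SP P α C₁ N := by
  have hCHE := Pool.Agent.H414.LT.che
  have hCH : S_CH := ch hCHE
  have hEXP : S_EXP := exq
  exact t1b (gg hCH (gc hCH (gb hCHE hCH (cls hEXP (ls lsa) hCH) (sele hEXP))))

end Pool.Agent.Results.MP_188a10_nt.StrengthOfGRH
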