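import Pool.Agent.H535.WS.Pr

set_option autoImplicit false

/-!
# A lower bound for the weighted sum of the errors beyond the level one half

How small can `S_{α,C₁}(N)` be?  We prove `S_{α,C₁}(N) ≥ c N ^ ((1 + α) / 2) (log N) ^ ((3 - C₁) / 2)`
for `1 / 2 < α < 1`, every real `C₁` and all large `N`; up to a factor about `√(log N)` this is the
size predicted by the conjectures of Montgomery type.  More generally, ANY real weights `f` on the
integers up to `N` which avoid one residue class modulo every prime `p ≤ Q` (and are not very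
concentrated) have large errors, with respect to ANY main terms `β_d`.  The basic result is that for
all moduli `q ∈ (K, 2K]` with at most `K / N ^ κ` exceptions, the sum over the allowed classes of the
squares of the errors is at least `(log (K / √N) - δ log N) (∑ f) ^ 2 / N`.

Proof: duality.  The test function is a truncated Ramanujan expansion
`∑_{P < r ≤ R} μ(r) c_r(n - b_r) / φ(r)`, with `P` about `N / K` and `R` about `√N`, shifted to the sifted
classes; it is constant on the sifted integers and its exponential sum is small everywhere.  The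
correlations at multiples of `q` are small for almost all `q` (starting files,
`Pool.Agent.W110.HV.off_avg`).  The weight `3 ^ ν(d)`: the sum of `3 ^ ν(d)` over the squarefree
`d ∈ (K, 4K]` is at least a constant times `K (log K) ^ 2` (Rankin's trick and Chebyshev), and the
exceptional moduli are negligible in the weighted sum, since their number is less than `K / N ^ κ`.
-/

open Finset

namespace Pool.Agent.Results.MP_188a10_nt.WeightedLowerBound

/-- the number of primes `p ≤ x` with `p ≡ l (mod d)` -/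
noncomputable def primesAP (x : ℝ) (d l : ℕ) : ℕ :=
  Set.ncard {p : ℕ | p.Prime ∧ (p : ℝ) ≤ x ∧ p ≡ l [MOD d]}

/-- the logarithmic integral -/
noncomputable def li (x : ℝ) : ℝ := ∫ t in (2 : ℝ)..x, 1 / Real.log t

/-- the maximal error `E(x, d)`, over `2 ≤ y ≤ x` and the `l` coprime to `d` -/
noncomputable def E (x : ℝ) (d : ℕ) : ℝ :=
  sSup {e : ℝ | ∃ (y : ℝ) (l : ℕ), 2 ≤ y ∧ y ≤ x ∧ l.Coprime d ∧
    e = |(primesAP y d l : ℝ) - li y / (Nat.totient d : ℝ)|}

/-- the squarefree integers `1 ≤ d < Q` -/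
noncomputable def moduli (Q : ℝ) : Finset ℕ := (Ico 1 ⌈Q⌉₊).filter Squarefree

/-- the sum of `3 ^ ν(d) E(N, d)` over the squarefree `d < Q` -/
noncomputable def S (Q : ℝ) (N : ℕ) : ℝ := ∑ d ∈ moduli Q, 3 ^ d.primeFactors.card * E N d

/-- `n` avoids the residue class of `b p` modulo every prime `p ≤ z` -/
def Avoids (b : ℕ → ℕ) (z : ℝ) (n : ℕ) : Prop := ∀ p : ℕ, p.Prime → (p : ℝ) ≤ z → ¬ n ≡ b p [MOD p]

/-- the residues `0 ≤ l < d` which avoid the class of `b p` modulo every prime `p` dividing `d` -/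
def allowed (b : ℕ → ℕ) (d : ℕ) : Finset ℕ :=
  (range d).filter (fun l => ∀ p ∈ d.primeFactors, ¬ l ≡ b p [MOD p])

/-- the sum of the weights `f n` over the integers `n ≤ N` -/
noncomputable def total (f : ℕ → ℝ) (N : ℕ) : ℝ := ∑ n ∈ Icc 1 N, f n

/-- the sum of the weights `f n` over the integers `n ≤ N` with `n ≡ l (mod d)` -/
noncomputable def inClass (f : ℕ → ℝ) (N d l : ℕ) : ℝ := ∑ n ∈ (Icc 1 N).filter (fun n => n ≡ l [MOD d]), f n

/-- the weights `f` on the integers up to `N` are supported on integers avoiding the class of `b p`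
modulo all primes `p ≤ z`, and `N ∑ f ^ 2 ≤ N ^ κ (∑ f) ^ 2` -/
def Sifted (κ : ℝ) (b : ℕ → ℕ) (z : ℝ) (N : ℕ) (f : ℕ → ℝ) : Prop :=
  (∀ n ∈ Icc 1 N, f n ≠ 0 → Avoids b z n) ∧
    (N : ℝ) * ∑ n ∈ Icc 1 N, f n ^ 2 ≤ (N : ℝ) ^ κ * total f N ^ 2

theorem allowed_eq (b : ℕ → ℕ) (d : ℕ) : allowed b d = Pool.Agent.H535.LB.Cls b d := by
  classical
  unfold allowed Pool.Agent.H535.LB.Cls
  ext l
  simp only [mem_filter, Pool.Agent.H535.LB.Av]
  refine and_congr_right fun _ => forall₂_congr fun p hp => not_congr ?_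
  rw [Nat.ModEq.comm]
  exact Nat.modEq_iff_dvd

theorem avoid_dvd (b : ℕ → ℕ) (z : ℝ) (n p : ℕ) (h : Avoids b z n) (hp : p.Prime) (hz : (p : ℝ) ≤ z) :
    ¬ (p : ℤ) ∣ (n : ℤ) - b p := by
  intro h1
  exact h p hp hz (Nat.modEq_iff_dvd.2 h1).symm

theorem bdd (x : ℝ) (d : ℕ) : BddAbove {e : ℝ | ∃ (y : ℝ) (l : ℕ), 2 ≤ y ∧ y ≤ x ∧ l.Coprime d ∧
    e = |(primesAP y d l : ℝ) - li y / (Nat.totient d : ℝ)|} := by
  refine ⟨((⌊x⌋₊ : ℝ) + 1) + 1 / Real.log 2 * (x - 2), ?_⟩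
  rintro e ⟨y, l, hy2, hyx, _, rfl⟩
  have hl2 : 0 < Real.log 2 := Real.log_pos (by norm_num)
  have h1 : (primesAP y d l : ℝ) ≤ ⌊x⌋₊ + 1 := by
    have : primesAP y d l ≤ ⌊x⌋₊ + 1 := by
      unfold primesAP
      have hsub : {p : ℕ | p.Prime ∧ (p : ℝ) ≤ y ∧ p ≡ l [MOD d]} ⊆
          ((range (⌊x⌋₊ + 1) : Finset ℕ) : Set ℕ) := by
        rintro p ⟨_, h2, _⟩
        rw [mem_coe, mem_range, Nat.lt_succ_iff, Nat.le_floor_iff (by linarith)]
        linarith
      have := Set.ncard_le_ncard hsub (finite_toSet _)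
      rwa [Set.ncard_coe_finset, card_range] at this
    exact_mod_cast this
  have h2 : |li y| ≤ 1 / Real.log 2 * (x - 2) := by
    unfold li
    have h3 := intervalIntegral.norm_integral_le_of_norm_le_const (a := (2 : ℝ)) (b := y)
      (C := 1 / Real.log 2) (f := fun t => 1 / Real.log t) (by
      intro t ht
      rw [Set.uIoc_of_le hy2, Set.mem_Ioc] at ht
      have h4 : Real.log 2 ≤ Real.log t := Real.log_le_log (by norm_num) ht.1.le
      rw [Real.norm_of_nonneg (one_div_nonneg.2 (hl2.le.trans h4))]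
      exact one_div_le_one_div_of_le hl2 h4)
    rw [Real.norm_eq_abs, abs_of_nonneg (by linarith : 0 ≤ y - 2)] at h3
    refine h3.trans ?_
    apply mul_le_mul_of_nonneg_left (by linarith) (by positivity)
  have h3 : |li y / (Nat.totient d : ℝ)| ≤ |li y| := by
    rw [abs_div]
    rcases Nat.eq_zero_or_pos (Nat.totient d) with h | h
    · rw [h]
      simp
    · apply div_le_self (abs_nonneg _)
      rw [abs_of_nonneg (Nat.cast_nonneg _)]
      exact_mod_cast h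
  have h4 := abs_sub (primesAP y d l : ℝ) (li y / (Nat.totient d : ℝ))
  have h5 : |(primesAP y d l : ℝ)| = primesAP y d l := abs_of_nonneg (Nat.cast_nonneg _)
  linarith

theorem le_E (N d l : ℕ) (hN : 2 ≤ N) (hl : l.Coprime d) :
    |Pool.Agent.H535.LB.pAP N d l - li N / (Nat.totient d : ℝ)| ≤ E N d := by
  refine le_csSup (bdd N d) ⟨N, l, by exact_mod_cast hN, le_rfl, hl, ?_⟩
  unfold primesAP Pool.Agent.H535.LB.pAP
  congr 3
  have : {p : ℕ | p.Prime ∧ (p : ℝ) ≤ (N : ℝ) ∧ p ≡ l [MOD d]} =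
      (((Icc 1 N).filter (fun p => p.Prime ∧ p ≡ l [MOD d]) : Finset ℕ) : Set ℕ) := by
    ext p
    simp only [Set.mem_ofPred_eq, coe_filter, mem_Icc, Nat.cast_le]
    constructor
    · rintro ⟨h5, h6, h7⟩
      exact ⟨⟨h5.one_lt.le, h6⟩, h5, h7⟩
    · rintro ⟨⟨_, h6⟩, h5, h7⟩
      exact ⟨h5, h6, h7⟩
  rw [this, Set.ncard_coe_finset]

theorem uniform (ε : ℝ) (hε : 0 < ε) (hε1 : ε ≤ 1 / 8) : ∃ c : ℝ, 0 < c ∧ ∃ N₀ : ℕ, ∀ N : ℕ, N₀ ≤ N → ∀ Q : ℝ,
    (N : ℝ) ^ (1 / 2 + ε) ≤ Q → Q ≤ (N : ℝ) ^ (1 - ε) →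
    c * (Real.sqrt (N * Q) * (Real.log N * Real.sqrt (Real.log N))) ≤ S Q N := by
  classical
  obtain ⟨c, hc, N0, h0⟩ := Pool.Agent.H535.WS.primes_weighted ε hε hε1
  refine ⟨c, hc, max N0 2, fun N hN Q hQ hQ1 => ?_⟩
  obtain ⟨l, hl, h1⟩ := h0 N ((le_max_left _ _).trans hN) Q hQ hQ1 (fun d => li N / Nat.totient d)
  refine h1.trans ?_
  unfold S moduli
  refine sum_le_sum fun d hd => ?_
  rw [mem_filter, mem_Ico] at hd
  have h2 := hl d hd.1.1
  rw [← allowed_eq] at h2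
  unfold allowed at h2
  rw [mem_filter, mem_range] at h2
  have hcop : (l d).Coprime d := by
    by_contra hcon
    obtain ⟨p, hp, h3, h4⟩ := Nat.Prime.not_coprime_iff_dvd.1 hcon
    apply h2.2 p (Nat.mem_primeFactors.2 ⟨hp, h4, by omega⟩)
    exact (Nat.modEq_zero_iff_dvd.2 h3)
  have h3 := le_E N d (l d) ((le_max_right _ _).trans hN) hcop
  unfold Pool.Agent.H535.WS.W3
  exact mul_le_mul_of_nonneg_left h3 (by positivity)

/--
1. **The primes.**  For `1/2 < α < 1` and every real `C₁` there is `c > 0` such that for all large `N`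
the sum of `3 ^ ν(d) E(N, d)` over the squarefree `d < N ^ α (log N) ^ (- C₁)` is at least
`c N ^ ((1 + α) / 2) (log N) ^ ((3 - C₁) / 2)`.  Uniformly, for `ε > 0` there is `c > 0` such that for all
large `N` and all `N ^ (1/2 + ε) ≤ Q ≤ N ^ (1 - ε)`: `S Q N ≥ c √(N Q) (log N) ^ (3/2)`.

2. **All sifted weights.**  For `ε > 0` there are `c, κ > 0` and `N₀` such that for all `N ≥ N₀`, all
`N ^ (1/2 + ε) ≤ Q ≤ N`, all `b`, all real weights `f` sifted up to `Q` and all real numbers `β_d`, the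
sum over the squarefree `d < Q` of `3 ^ ν(d)` times the maximum over the allowed classes `l` of
`|∑_{n ≤ N, n ≡ l (d)} f(n) - β_d|` is at least `c |∑ f| (log N) ^ (5/2) √(Q / N)`.

3. **Almost all moduli.**  For `δ > 0` there are `κ > 0` and `N₀` such that for all
`N ≥ N₀`, all `N ^ (1/2 + δ) ≤ K ≤ N`, all classes `b` and all real weights `f` which are sifted up to
`2 K`: with at most `K / N ^ κ` exceptions, all the moduli `q ∈ (K, 2K]` have the property that for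
EVERY real number `β` the sum over the allowed classes `l` modulo `q` of
`(∑_{n ≤ N, n ≡ l (q)} f(n) - β) ^ 2` is at least `(log K - (1/2 + δ) log N) (∑ f) ^ 2 / N`.
-/
theorem result :
    (∀ α C₁ : ℝ, 1 / 2 < α → α < 1 → ∃ c : ℝ, 0 < c ∧ ∃ N₀ : ℕ, ∀ N : ℕ, N₀ ≤ N →
      c * ((N : ℝ) ^ ((1 + α) / 2) * Real.log N ^ ((3 - C₁) / 2)) ≤
        S ((N : ℝ) ^ α * Real.log N ^ (-C₁)) N) ∧
    (∀ ε : ℝ, 0 < ε → ∃ c : ℝ, 0 < c ∧ ∃ N₀ : ℕ, ∀ N : ℕ, N₀ ≤ N → ∀ Q : ℝ,
      (N : ℝ) ^ (1 / 2 + ε) ≤ Q → Q ≤ (N : ℝ) ^ (1 - ε) →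
      c * (Real.sqrt (N * Q) * Real.log N ^ (3 / 2 : ℝ)) ≤ S Q N) ∧
    (∀ ε : ℝ, 0 < ε → ∃ c : ℝ, 0 < c ∧ ∃ κ : ℝ, 0 < κ ∧ ∃ N₀ : ℕ, ∀ N : ℕ, N₀ ≤ N → ∀ Q : ℝ,
      (N : ℝ) ^ (1 / 2 + ε) ≤ Q → Q ≤ N → ∀ (b : ℕ → ℕ) (f : ℕ → ℝ), Sifted κ b Q N f →
      ∀ β : ℕ → ℝ, ∃ l : ℕ → ℕ, (∀ d : ℕ, 1 ≤ d → l d ∈ allowed b d) ∧
        c * (|total f N| * (Real.log N ^ (5 / 2 : ℝ) * Real.sqrt (Q / N))) ≤
          ∑ d ∈ moduli Q, 3 ^ d.primeFactors.card * |inClass f N d (l d) - β d|) ∧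
    (∀ δ : ℝ, 0 < δ → ∃ κ : ℝ, 0 < κ ∧ ∃ N₀ : ℕ, ∀ N : ℕ, N₀ ≤ N → ∀ K : ℕ,
      (N : ℝ) ^ (1 / 2 + δ) ≤ K → K ≤ N → ∀ (b : ℕ → ℕ) (f : ℕ → ℝ), Sifted κ b (2 * K) N f →
      (Set.ncard {q : ℕ | q ∈ Ioc K (2 * K) ∧ ∃ β : ℝ, ∑ l ∈ allowed b q, (inClass f N q l - β) ^ 2 <
        (Real.log K - (1 / 2 + δ) * Real.log N) * total f N ^ 2 / N} : ℝ) ≤ K / (N : ℝ) ^ κ) := by
  classical
  refine ⟨?_, ?_, ?_, ?_⟩
  · intro α C₁ hα hα1
    set ε : ℝ := min ((α - 1 / 2) / 2) (min ((1 - α) / 2) (1 / 8)) with hε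
    have hε0 : 0 < ε := lt_min (by linarith) (lt_min (by linarith) (by norm_num))
    have hε1 : ε ≤ (α - 1 / 2) / 2 := min_le_left _ _
    have hε2 : ε ≤ (1 - α) / 2 := (min_le_right _ _).trans (min_le_left _ _)
    have hε3 : ε ≤ 1 / 8 := (min_le_right _ _).trans (min_le_right _ _)
    obtain ⟨c, hc, N0, h0⟩ := uniform ε hε0 hε3
    have hev1 : ∀ r : ℝ, ∃ n1 : ℕ, ∀ N : ℕ, n1 ≤ N → Real.log N ^ r ≤ (N : ℝ) ^ ε := by
      intro r
      have h1 := (isLittleO_log_rpow_rpow_atTop r hε0).def (zero_lt_one)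
      have h2 := (tendsto_natCast_atTop_atTop (R := ℝ)).eventually h1
      obtain ⟨n1, hn1⟩ := Filter.eventually_atTop.1 h2
      refine ⟨n1, fun N hN => ?_⟩
      have h3 := hn1 N hN
      rw [one_mul, Real.norm_eq_abs, Real.norm_eq_abs,
        abs_of_nonneg (Real.rpow_nonneg (Real.log_natCast_nonneg N) r),
        abs_of_nonneg (Real.rpow_nonneg (Nat.cast_nonneg N) ε)] at h3
      exact h3
    obtain ⟨n1, hn1⟩ := hev1 C₁
    obtain ⟨n2, hn2⟩ := hev1 (-C₁)
    refine ⟨c, hc, max (max N0 3) (max n1 n2), fun N hN => ?_⟩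
    have hN0' : N0 ≤ N := le_trans (le_trans (le_max_left _ _) (le_max_left _ _)) hN
    have hN3 : 3 ≤ N := le_trans (le_trans (le_max_right _ _) (le_max_left _ _)) hN
    have g1 := hn1 N (le_trans (le_trans (le_max_left _ _) (le_max_right _ _)) hN)
    have g2 := hn2 N (le_trans (le_trans (le_max_right _ _) (le_max_right _ _)) hN)
    have hN0 : (0 : ℝ) < N := by exact_mod_cast (by omega : 0 < N)
    have hN3r : (3 : ℝ) ≤ N := by exact_mod_cast hN3
    have hN1r : (1 : ℝ) ≤ N := by linarith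
    have hlog : 0 < Real.log N := Real.log_pos (by linarith)
    set L := Real.log N with hL
    have hLC : 0 < L ^ C₁ := Real.rpow_pos_of_pos hlog _
    have hLC' : 0 < L ^ (-C₁) := Real.rpow_pos_of_pos hlog _
    have hQ1 : (N : ℝ) ^ (1 / 2 + ε) ≤ (N : ℝ) ^ α * L ^ (-C₁) := by
      rw [Real.rpow_neg hlog.le, ← div_eq_mul_inv, le_div_iff₀ hLC]
      calc (N : ℝ) ^ (1 / 2 + ε) * L ^ C₁ ≤ (N : ℝ) ^ (1 / 2 + ε) * (N : ℝ) ^ ε := by gcongr
        _ = (N : ℝ) ^ (1 / 2 + ε + ε) := by rw [← Real.rpow_add hN0]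
        _ ≤ (N : ℝ) ^ α := Real.rpow_le_rpow_of_exponent_le hN1r (by linarith)
    have hQ2 : (N : ℝ) ^ α * L ^ (-C₁) ≤ (N : ℝ) ^ (1 - ε) := by
      calc (N : ℝ) ^ α * L ^ (-C₁) ≤ (N : ℝ) ^ α * (N : ℝ) ^ ε := by gcongr
        _ = (N : ℝ) ^ (α + ε) := by rw [← Real.rpow_add hN0]
        _ ≤ (N : ℝ) ^ (1 - ε) := Real.rpow_le_rpow_of_exponent_le hN1r (by linarith)
    refine le_trans (le_of_eq ?_) (h0 N hN0' _ hQ1 hQ2)
    congr 1
    have e1 : Real.sqrt (N * ((N : ℝ) ^ α * L ^ (-C₁))) = (N : ℝ) ^ ((1 + α) / 2) * L ^ (-C₁ / 2) := by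
      have e2 : (N : ℝ) * ((N : ℝ) ^ α * L ^ (-C₁)) = ((N : ℝ) ^ ((1 + α) / 2) * L ^ (-C₁ / 2)) ^ 2 := by
        rw [mul_pow, ← Real.rpow_natCast, ← Real.rpow_mul hN0.le, ← Real.rpow_natCast (L ^ (-C₁ / 2)),
          ← Real.rpow_mul hlog.le, ← mul_assoc]
        have e3 : (1 + α) / 2 * ((2 : ℕ) : ℝ) = 1 + α := by
          push_cast
          ring
        have e4 : -C₁ / 2 * ((2 : ℕ) : ℝ) = -C₁ := by
          push_cast
          ring
        rw [e3, e4, Real.rpow_add hN0, Real.rpow_one]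
      rw [e2, Real.sqrt_sq (by positivity)]
    have e5 : L ^ ((3 - C₁) / 2) = L ^ (-C₁ / 2) * (L * Real.sqrt L) := by
      have e6 : L * Real.sqrt L = L ^ (3 / 2 : ℝ) := by
        rw [Real.sqrt_eq_rpow]
        nth_rewrite 1 [← Real.rpow_one L]
        rw [← Real.rpow_add hlog]
        norm_num
      rw [e6, ← Real.rpow_add hlog]
      congr 1
      ring
    rw [e1, e5]
    ring
  · intro ε hε
    obtain ⟨c, hc, N0, h0⟩ := uniform (min ε (1 / 8)) (lt_min hε (by norm_num)) (min_le_right _ _)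
    refine ⟨c, hc, max N0 3, fun N hN Q hQ hQ1 => ?_⟩
    have hN3 : 3 ≤ N := le_trans (le_max_right _ _) hN
    have hN3r : (3 : ℝ) ≤ N := by exact_mod_cast hN3
    have hN1r : (1 : ℝ) ≤ N := by linarith
    have hlog : 0 < Real.log N := Real.log_pos (by linarith)
    have hmin : min ε (1 / 8) ≤ ε := min_le_left _ _
    have h1 := h0 N ((le_max_left _ _).trans hN) Q
      ((Real.rpow_le_rpow_of_exponent_le hN1r (by linarith)).trans hQ)
      (hQ1.trans (Real.rpow_le_rpow_of_exponent_le hN1r (by linarith)))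
    refine le_trans (le_of_eq ?_) h1
    have e6 : Real.log N * Real.sqrt (Real.log N) = Real.log N ^ (3 / 2 : ℝ) := by
      rw [Real.sqrt_eq_rpow]
      nth_rewrite 1 [← Real.rpow_one (Real.log N)]
      rw [← Real.rpow_add hlog]
      norm_num
    rw [e6]
  · intro ε hε
    obtain ⟨c, hc, N0, h0⟩ := Pool.Agent.H535.WS.weighted (ε / 3) (by positivity)
    have hsε : 0 < Real.sqrt (ε / 3) := Real.sqrt_pos.2 (by positivity)
    refine ⟨c * Real.sqrt (ε / 3), by positivity, ε / 3 / 32, by positivity, max N0 3,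
      fun N hN Q hQ hQN b f hf β => ?_⟩
    have hN3 : 3 ≤ N := le_trans (le_max_right _ _) hN
    have hN3r : (3 : ℝ) ≤ N := by exact_mod_cast hN3
    have hN0 : (0 : ℝ) < N := by linarith
    have hlog : 0 < Real.log N := Real.log_pos (by linarith)
    have hQ0 : 0 < Q := lt_of_lt_of_le (by positivity) hQ
    obtain ⟨l, hl, G, hG, _, hGc, hGq⟩ := h0 N ((le_max_left _ _).trans hN) Q (by
      refine le_trans (le_of_eq ?_) hQ
      congr 1
      ring) hQN b f (by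
      intro n hn hne p hp hpK
      exact avoid_dvd b _ n p (hf.1 n hn hne) hp hpK) hf.2 β
    refine ⟨l, fun d hd => by rw [allowed_eq]; exact hl d hd, ?_⟩
    have hsNQ : 0 < Real.sqrt (N * Q) := Real.sqrt_pos.2 (by positivity)
    set T := Real.sqrt (ε / 3) * |total f N| * (Real.sqrt (Real.log N) / Real.sqrt (N * Q)) with hT
    have hT0 : 0 ≤ T := by positivity
    calc c * Real.sqrt (ε / 3) * (|total f N| * (Real.log N ^ (5 / 2 : ℝ) * Real.sqrt (Q / N)))
        = c * (Q * Real.log N ^ 2) * T := by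
          have e1 : Real.log N ^ (5 / 2 : ℝ) = Real.log N ^ 2 * Real.sqrt (Real.log N) := by
            rw [Real.sqrt_eq_rpow, ← Real.rpow_natCast (Real.log N) 2, ← Real.rpow_add hlog]
            norm_num
          have e2 : Real.sqrt (Q / N) = Q / Real.sqrt (N * Q) := by
            rw [eq_div_iff hsNQ.ne', ← Real.sqrt_mul (by positivity)]
            have : Q / N * (N * Q) = Q ^ 2 := by
              field_simp
            rw [this, Real.sqrt_sq hQ0.le]
          rw [e1, e2, hT]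
          ring
      _ ≤ (∑ d ∈ G, Pool.Agent.H535.WS.W3 d) * T := mul_le_mul_of_nonneg_right hGc hT0
      _ = ∑ d ∈ G, Pool.Agent.H535.WS.W3 d * T := by rw [sum_mul]
      _ ≤ ∑ d ∈ G, 3 ^ d.primeFactors.card * |inClass f N d (l d) - β d| :=
          sum_le_sum fun d hd => mul_le_mul_of_nonneg_left (hGq d hd) (Pool.Agent.H535.WS.W3_pos d).le
      _ ≤ _ := sum_le_sum_of_subset_of_nonneg hG fun _ _ _ => by positivity
  · intro δ hδ
    obtain ⟨N0, h0⟩ := Pool.Agent.H535.LB.main δ hδ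
    refine ⟨δ / 32, by positivity, max N0 1, fun N hN K hK hKN b f hf => ?_⟩
    have hN1 : 1 ≤ N := (le_max_right _ _).trans hN
    obtain ⟨X, hX, hXc, hXq⟩ := h0 N ((le_max_left _ _).trans hN) K hK hKN b f (by
      intro n hn hne p hp hpK
      apply avoid_dvd b (2 * K) n p (hf.1 n hn hne) hp
      exact_mod_cast hpK) hf.2
    refine le_trans ?_ hXc
    have hsub : {q : ℕ | q ∈ Ioc K (2 * K) ∧ ∃ β : ℝ, ∑ l ∈ allowed b q, (inClass f N q l - β) ^ 2 <
        (Real.log K - (1 / 2 + δ) * Real.log N) * total f N ^ 2 / N} ⊆ (X : Set ℕ) := by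
      rintro q ⟨hq, β, hβ⟩
      by_contra hcon
      have h1 := hXq q hq hcon β
      rw [← allowed_eq] at h1
      exact absurd hβ (not_lt.2 h1)
    have h1 := Set.ncard_le_ncard hsub X.finite_toSet
    rw [Set.ncard_coe_finset] at h1
    exact_mod_cast h1

end Pool.Agent.Results.MP_188a10_nt.WeightedLowerBound
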